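import Pool.Agent.H998.HK.Spec3

set_option autoImplicit false
set_option linter.unusedSectionVars false

noncomputable section

namespace Pool.Agent.H120.HK

open MeasureTheory Filter Topology Set Pool.Agent.H998.HK
open scoped ENNReal NNReal RealInnerProductSpace ComplexConjugate

section cfcs

variable {H : Type} [NormedAddCommGroup H] [InnerProductSpace ℂ H] [CompleteSpace H]

theorem T_mul (R : H →L[ℂ] H) {f g : ℝ → ℝ} (hf : Continuous f) (hg : Continuous g) (v : H) :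
    cfc (fun r => f r * g r) R v = cfc f R (cfc g R v) := by
  rw [cfc_mul f g R hf.continuousOn hg.continuousOn]; rfl

theorem T_nsq (R : H →L[ℂ] H) {f : ℝ → ℝ} (hf : Continuous f) (v : H) :
    ‖cfc f R v‖ ^ 2 = RCLike.re (inner ℂ (cfc (fun r => f r ^ 2) R v) v) := by
  have hsa : IsSelfAdjoint (cfc f R) := by exact IsSelfAdjoint.cfc
  have h1 : cfc (fun r => f r ^ 2) R v = cfc f R (cfc f R v) := by
    rw [← T_mul R hf hf]; congr 2; ext r; ring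
  rw [h1, ← inner_self_eq_norm_sq (𝕜 := ℂ)]
  congr 1
  have h2 := ContinuousLinearMap.adjoint_inner_left (cfc f R) v (cfc f R v)
  rw [← ContinuousLinearMap.star_eq_adjoint, hsa.star_eq] at h2
  exact h2.symm

theorem T_mono {R : H →L[ℂ] H} (hR : GoodR R) {f g : ℝ → ℝ} (hf : Continuous f) (hg : Continuous g)
    (h : ∀ r, 0 ≤ r → r ≤ 1 → f r ≤ g r) (v : H) :
    RCLike.re (inner ℂ (cfc f R v) v) ≤ RCLike.re (inner ℂ (cfc g R v) v) := by
  have h1 : cfc f R ≤ cfc g R := cfc_mono (fun r hr => h r (hR.spec r hr).1 (hR.spec r hr).2)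
    hf.continuousOn hg.continuousOn
  rw [ContinuousLinearMap.le_def] at h1
  have h2 := h1.re_inner_nonneg_left v
  simp only [sub_apply, inner_sub_left, map_sub] at h2
  linarith

theorem T_sumsq {R : H →L[ℂ] H} {ι : Type} (s : Finset ι) {f : ι → ℝ → ℝ}
    (hf : ∀ i, Continuous (f i)) (v : H) :
    ∑ i ∈ s, ‖cfc (f i) R v‖ ^ 2 =
      RCLike.re (inner ℂ (cfc (fun r => ∑ i ∈ s, f i r ^ 2) R v) v) := by
  rw [show (fun r => ∑ i ∈ s, f i r ^ 2) = ∑ i ∈ s, (fun r => f i r ^ 2) by ext r; simp]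
  rw [cfc_sum (fun i => (fun r => f i r ^ 2)) R s (fun i _ => by
    exact ((hf i).pow 2).continuousOn)]
  rw [sum_apply, sum_inner, map_sum]
  exact Finset.sum_congr rfl fun i _ => T_nsq R (hf i) v

theorem T_le {R : H →L[ℂ] H} (hR : GoodR R) {ι : Type} (s : Finset ι) {f : ι → ℝ → ℝ}
    (hf : ∀ i, Continuous (f i)) {h : ℝ → ℝ} (hh : Continuous h)
    (hle : ∀ r, 0 ≤ r → r ≤ 1 → ∑ i ∈ s, f i r ^ 2 ≤ h r ^ 2) (v : H) :
    ∑ i ∈ s, ‖cfc (f i) R v‖ ^ 2 ≤ ‖cfc h R v‖ ^ 2 := by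
  rw [T_sumsq s hf, T_nsq R hh]
  exact T_mono hR (continuous_finsetSum _ fun i _ => (hf i).pow 2) (hh.pow 2) hle v

theorem T_ge {R : H →L[ℂ] H} (hR : GoodR R) {ι : Type} (s : Finset ι) {f : ι → ℝ → ℝ}
    (hf : ∀ i, Continuous (f i)) {h : ℝ → ℝ} (hh : Continuous h)
    (hle : ∀ r, 0 ≤ r → r ≤ 1 → h r ^ 2 ≤ ∑ i ∈ s, f i r ^ 2) (v : H) :
    ‖cfc h R v‖ ^ 2 ≤ ∑ i ∈ s, ‖cfc (f i) R v‖ ^ 2 := by
  rw [T_sumsq s hf, T_nsq R hh]
  exact T_mono hR (hh.pow 2) (continuous_finsetSum _ fun i _ => (hf i).pow 2) hle v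

theorem T_const {R : H →L[ℂ] H} (hR : GoodR R) (c : ℝ) (v : H) :
    cfc (fun _ : ℝ => c) R v = c • v := by
  rw [cfc_const c R hR.sa]
  rw [ContinuousLinearMap.algebraMap_apply]

theorem T_le_const {R : H →L[ℂ] H} (hR : GoodR R) {ι : Type} (s : Finset ι) {f : ι → ℝ → ℝ}
    (hf : ∀ i, Continuous (f i)) {c : ℝ}
    (hle : ∀ r, 0 ≤ r → r ≤ 1 → ∑ i ∈ s, f i r ^ 2 ≤ c ^ 2) (v : H) :
    ∑ i ∈ s, ‖cfc (f i) R v‖ ^ 2 ≤ c ^ 2 * ‖v‖ ^ 2 := by
  have h1 := T_le hR s hf (h := fun _ => c) continuous_const hle v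
  rw [T_const hR, norm_smul, mul_pow, Real.norm_eq_abs, sq_abs] at h1
  exact h1

theorem T_le_one {R : H →L[ℂ] H} (hR : GoodR R) {f : ℝ → ℝ}
    (hf : Continuous f) {c : ℝ} (hc : 0 ≤ c)
    (hle : ∀ r, 0 ≤ r → r ≤ 1 → |f r| ≤ c) (v : H) :
    ‖cfc f R v‖ ≤ c * ‖v‖ := by
  have h1 := T_le_const hR {()} (f := fun _ => f) (fun _ => hf) (c := c) (fun r h0 h1 => by
    simpa using sq_le_sq' (by linarith [neg_abs_le (f r), hle r h0 h1]) ((le_abs_self _).trans (hle r h0 h1))) v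
  simp only [Finset.sum_singleton] at h1
  rw [← mul_pow] at h1
  exact (pow_le_pow_iff_left₀ (norm_nonneg _) (by positivity) (by norm_num)).1 h1

end cfcs

section meas

variable {H : Type} [NormedAddCommGroup H] [InnerProductSpace ℂ H] [CompleteSpace H]

theorem int_test {φ : E3 → ℝ} (hφ : Continuous φ) (hc : HasCompactSupport φ) {u : E3 → H}
    (hu : LocallyIntegrable u) : Integrable (fun x => φ x • u x) :=
  hu.integrable_smul_left_of_hasCompactSupport hφ hc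

theorem pd_cont {φ : E3 → ℝ} (hφ : Test φ) (i : Fin 3) : Continuous (pd i φ) :=
  (hφ.1.continuous_fderiv (by simp)).clm_apply continuous_const

theorem pd_comp {φ : E3 → ℝ} (hφ : Test φ) (i : Fin 3) : HasCompactSupport (pd i φ) :=
  hφ.2.fderiv_apply ℝ _

theorem memLp_T (L : H →L[ℂ] H) {u : E3 → H} (hu : MemLp u 2) : MemLp (fun x => L (u x)) 2 :=
  L.comp_memLp' hu

theorem loc2 {u : E3 → H} (hu : MemLp u 2) : LocallyIntegrable u :=
  hu.locallyIntegrable (by norm_num)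

theorem meas_om2 (m : ℕ) : Measurable (om2 m) :=
  (measurable_norm.pow_const _).ennreal_ofReal

/-- `V χ` is integrable -/
theorem int_V {V : E3 → ℝ} {r0 M : ℝ} {χ : E3 → H} (hV : Measurable V) (hχ : MemLp χ 2)
    (hM : (∫⁻ x in Metric.closedBall (0 : E3) r0, ENNReal.ofReal (|V x| ^ (3 / 2 : ℝ))) ^ (2 / 3 : ℝ) ≤
      ENNReal.ofReal M)
    (hfin : ∫⁻ x, ENNReal.ofReal (|V x| * ‖χ x‖ ^ 2) < ∞)
    (h0 : ∀ x, r0 < ‖x‖ → χ x = 0) : Integrable (fun x => V x • χ x) := by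
  refine ⟨hV.aestronglyMeasurable.smul hχ.1, ?_⟩
  have hB : ∫⁻ x in Metric.closedBall (0 : E3) r0, ENNReal.ofReal (|V x| ^ (3 / 2 : ℝ)) < ∞ := by
    by_contra hcon
    rw [not_lt, top_le_iff] at hcon
    rw [hcon] at hM
    simp at hM
  have hB2 : ∫⁻ x in Metric.closedBall (0 : E3) r0, (1 : ℝ≥0∞) < ∞ := by
    simpa using measure_closedBall_lt_top (μ := (volume : Measure E3)) (x := 0) (r := r0)
  unfold HasFiniteIntegral
  calc ∫⁻ x, ‖V x • χ x‖ₑ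
      ≤ ∫⁻ x, ((Metric.closedBall (0 : E3) r0).indicator (fun x => 1 + ENNReal.ofReal (|V x| ^ (3 / 2 : ℝ))) x
          + ENNReal.ofReal (|V x| * ‖χ x‖ ^ 2)) := by
        refine lintegral_mono fun x => ?_
        rw [← ofReal_norm, norm_smul, Real.norm_eq_abs]
        by_cases hx : r0 < ‖x‖
        · rw [h0 x hx]; simp
        · have hx' : x ∈ Metric.closedBall (0 : E3) r0 := by simpa using hx
          rw [indicator_of_mem hx', ← ENNReal.ofReal_one, ← ENNReal.ofReal_add (by norm_num)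
            (by positivity), ← ENNReal.ofReal_add (by positivity) (by positivity)]
          refine ENNReal.ofReal_le_ofReal ?_
          have h1 : |V x| ≤ 1 + |V x| ^ (3 / 2 : ℝ) := by
            rcases le_or_gt |V x| 1 with h | h
            · have : 0 ≤ |V x| ^ (3 / 2 : ℝ) := by positivity
              linarith
            · have := Real.rpow_le_rpow_of_exponent_le h.le (show (1 : ℝ) ≤ 3 / 2 by norm_num)
              rw [Real.rpow_one] at this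
              linarith
          have h2 : |V x| * ‖χ x‖ ≤ |V x| + |V x| * ‖χ x‖ ^ 2 := by
            nlinarith [abs_nonneg (V x), sq_nonneg (‖χ x‖ - 1), mul_nonneg (abs_nonneg (V x)) (sq_nonneg (‖χ x‖ - 1)), mul_nonneg (abs_nonneg (V x)) (sq_nonneg (‖χ x‖))]
          linarith
    _ = (∫⁻ x, (Metric.closedBall (0 : E3) r0).indicator
          (fun x => 1 + ENNReal.ofReal (|V x| ^ (3 / 2 : ℝ))) x) +
          ∫⁻ x, ENNReal.ofReal (|V x| * ‖χ x‖ ^ 2) := by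
        rw [lintegral_add_left]
        refine Measurable.indicator ?_ Metric.isClosed_closedBall.measurableSet
        exact measurable_const.add (hV.abs.pow_const _).ennreal_ofReal
    _ < ∞ := by
        refine ENNReal.add_lt_top.2 ⟨?_, hfin⟩
        rw [lintegral_indicator Metric.isClosed_closedBall.measurableSet,
          lintegral_add_left measurable_const]
        exact ENNReal.add_lt_top.2 ⟨hB2, hB⟩

theorem T_R {R : H →L[ℂ] H} (hR : GoodR R) {f : ℝ → ℝ} (hf : Continuous f) (v : H) :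
    cfc f R (R v) = cfc (fun r => f r * r) R v := by
  have h := T_mul R hf continuous_id v
  simp only [id] at h
  rw [h]
  congr 1
  rw [show cfc (id : ℝ → ℝ) R = R from cfc_id ℝ R hR.sa]

/-- the equation satisfied by `cfc f R χ` -/
theorem eqA {R : H →L[ℂ] H} (hR : GoodR R) {V : E3 → ℝ} {χ g g₃ : E3 → H} {D : Fin 3 → E3 → H}
    (hχ : MemLp χ 2) (hg : MemLp g 2) (hg₃ : MemLp g₃ 2) (hD : ∀ i, MemLp (D i) 2)
    (hVχ : Integrable (fun x => V x • χ x)) (hE : HEq R V χ D g g₃) {f : ℝ → ℝ} (hf : Continuous f)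
    {δ : ℝ} (hδ : 0 < δ) (hf0 : ∀ r, r ≤ δ → f r = 0) {s : ℝ} (hs : 0 < s) {φ : E3 → ℝ}
    (hφ : Test φ) :
    ∫ x, (∑ i, pd i φ x • cfc f R (D i x) + (s⁻¹ * φ x) • cfc f R (χ x)) =
      ∫ x, φ x • (V x • cfc f R (χ x) + s ^ (-(1 / 4 : ℝ)) •
        cfc (fun r => s ^ (1 / 4 : ℝ) * (f r * (max r δ) ^ (-(1 / 4 : ℝ)))) R (g x) +
        (cfc f R (g₃ x) + cfc (fun r => f r * (s⁻¹ - (max r δ)⁻¹)) R (χ x))) := by
  have hmpos : ∀ r : ℝ, 0 < max r δ := fun r => lt_max_of_lt_right hδ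
  have hmc : Continuous fun r : ℝ => max r δ := continuous_id.max continuous_const
  have hmi : Continuous fun r : ℝ => (max r δ)⁻¹ := hmc.inv₀ fun r => (hmpos r).ne'
  have hm4 : Continuous fun r : ℝ => (max r δ) ^ (-(1 / 4 : ℝ)) :=
    hmc.rpow_const fun r => Or.inl (hmpos r).ne'
  have hLc : Continuous fun r => f r * (max r δ)⁻¹ := hf.mul hmi
  -- `L R = cfc f`
  have h1 : ∀ v, cfc (fun r => f r * (max r δ)⁻¹) R (R v) = cfc f R v := by
    intro v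
    rw [T_R hR hLc]
    congr 2
    ext r
    rcases le_or_gt r δ with h | h
    · rw [hf0 r h]; ring
    · rw [max_eq_left h.le]; field_simp [(hδ.trans h).ne']
  have h2 : ∀ v, cfc (fun r => f r * (max r δ)⁻¹) R (Rpow R (3 / 4) v) = s ^ (-(1 / 4 : ℝ)) •
        cfc (fun r => s ^ (1 / 4 : ℝ) * (f r * (max r δ) ^ (-(1 / 4 : ℝ)))) R v := by
    intro v
    have h34 : Continuous fun r : ℝ => r ^ (3 / 4 : ℝ) := continuous_id.rpow_const fun r => Or.inr (by norm_num)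
    rw [Rpow, ← T_mul R hLc h34, cfc_const_mul (s ^ (1 / 4 : ℝ))
      (fun r => f r * (max r δ) ^ (-(1 / 4 : ℝ))) R (hf.mul hm4).continuousOn]
    rw [smul_apply, smul_smul, ← Real.rpow_add hs]
    rw [show (-(1 / 4 : ℝ)) + 1 / 4 = 0 by norm_num, Real.rpow_zero, one_smul]
    congr 2
    ext r
    rcases le_or_gt r δ with h | h
    · rw [hf0 r h]; ring
    · rw [max_eq_left h.le]
      have hr := hδ.trans h
      rw [mul_assoc, ← Real.rpow_neg_one, ← Real.rpow_add hr]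
      norm_num
  have h3 : ∀ v, cfc (fun r => f r * (s⁻¹ - (max r δ)⁻¹)) R v = s⁻¹ • cfc f R v -
      cfc (fun r => f r * (max r δ)⁻¹) R v := by
    intro v
    rw [← smul_apply, ← cfc_const_mul _ _ R hf.continuousOn, ← sub_apply,
      ← cfc_sub (fun x => s⁻¹ * f x) (fun r => f r * (max r δ)⁻¹) R
        (continuous_const.mul hf).continuousOn hLc.continuousOn]
    congr 2
    ext r
    ring
  set L : H →L[ℂ] H := cfc (fun r => f r * (max r δ)⁻¹) R with hL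
  have hE1 := hE φ hφ
  have iD : ∀ i, Integrable (fun x => pd i φ x • (D i x)) := fun i =>
    int_test (pd_cont hφ i) (pd_comp hφ i) (loc2 (hD i))
  have iRD : ∀ i, Integrable (fun x => pd i φ x • R (D i x)) := fun i =>
    int_test (pd_cont hφ i) (pd_comp hφ i) (loc2 (memLp_T R (hD i)))
  have iχ : Integrable (fun x => φ x • χ x) := int_test hφ.1.continuous hφ.2 (loc2 hχ)
  have iVχ : Integrable (fun x => φ x • (R (V x • χ x) + Rpow R (3 / 4) (g x) + R (g₃ x))) := by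
    refine int_test hφ.1.continuous hφ.2 ?_
    exact ((R.integrable_comp hVχ).locallyIntegrable.add (loc2 (memLp_T _ hg))).add (loc2 (memLp_T _ hg₃))
  have hE2 := congrArg L hE1
  have iS : Integrable (fun x => ∑ i, pd i φ x • R (D i x) + φ x • χ x) :=
    (integrable_finsetSum _ fun i _ => iRD i).add iχ
  rw [← L.integral_comp_comm iS, ← L.integral_comp_comm iVχ] at hE2
  have iextra : Integrable (fun x => φ x • cfc (fun r => f r * (s⁻¹ - (max r δ)⁻¹)) R (χ x)) :=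
    int_test hφ.1.continuous hφ.2 (loc2 (memLp_T _ hχ))
  have e1 : ∀ x, (∑ i, pd i φ x • cfc f R (D i x) + (s⁻¹ * φ x) • cfc f R (χ x)) =
      L (∑ i, pd i φ x • R (D i x) + φ x • χ x) +
        φ x • cfc (fun r => f r * (s⁻¹ - (max r δ)⁻¹)) R (χ x) := by
    intro x
    rw [map_add, map_sum, h3]
    simp only [ContinuousLinearMap.map_smul_of_tower, h1]
    rw [mul_comm s⁻¹, mul_smul, smul_sub]
    abel
  have e2 : ∀ x, φ x • (V x • cfc f R (χ x) + s ^ (-(1 / 4 : ℝ)) •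
        cfc (fun r => s ^ (1 / 4 : ℝ) * (f r * (max r δ) ^ (-(1 / 4 : ℝ)))) R (g x) +
        (cfc f R (g₃ x) + cfc (fun r => f r * (s⁻¹ - (max r δ)⁻¹)) R (χ x))) =
      L (φ x • (R (V x • χ x) + Rpow R (3 / 4) (g x) + R (g₃ x))) +
        φ x • cfc (fun r => f r * (s⁻¹ - (max r δ)⁻¹)) R (χ x) := by
    intro x
    rw [ContinuousLinearMap.map_smul_of_tower, map_add, map_add, h1, h1, h2, ContinuousLinearMap.map_smul_of_tower]
    simp only [smul_add]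
    abel
  simp only [e1, e2]
  rw [integral_add (L.integrable_comp iS) iextra,
    integral_add (L.integrable_comp iVχ) iextra]
  exact congrArg (· + _) hE2

end meas

/-- the vector valued Carleman inequality with the constant `C` -/
def VS (C : ℝ≥0) : Prop := ∀ (H : Type) [NormedAddCommGroup H] [InnerProductSpace ℂ H]
  [CompleteSpace H] [TopologicalSpace.SeparableSpace H] (V : E3 → ℝ) (κ ρ r0 M : ℝ) (m : ℕ)
  (u g₁ g₂ g₃ : E3 → H) (D : Fin 3 → E3 → H), Measurable V → 1 ≤ κ → 0 < ρ → ρ < r0 → r0 ≤ 1 →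
  1 ≤ m → 0 ≤ M →
  (∫⁻ x in Metric.closedBall (0 : E3) r0, ENNReal.ofReal (|V x| ^ (3 / 2 : ℝ))) ^ (2 / 3 : ℝ) ≤
    ENNReal.ofReal M →
  MemLp u 2 → (∀ i, MemLp (D i) 2) → MemLp g₁ 2 → MemLp g₂ 2 → MemLp g₃ 2 → WeakGrad u D →
  (∀ φ : E3 → ℝ, Test φ → ∫ x, (∑ i, pd i φ x • D i x + (κ ^ 2 * φ x) • u x) =
    ∫ x, φ x • (√|V x| • g₁ x + √κ • g₂ x + g₃ x)) →
  (∀ x, (‖x‖ < ρ ∨ r0 < ‖x‖) → u x = 0 ∧ g₁ x = 0 ∧ g₂ x = 0 ∧ g₃ x = 0 ∧ ∀ i, D i x = 0) →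
  (∫⁻ x, om2 m x * ENNReal.ofReal (|V x| * ‖u x‖ ^ 2)) + ENNReal.ofReal κ *
      ∫⁻ x, om2 m x * ENNReal.ofReal (‖u x‖ ^ 2) ≤
    C * ENNReal.ofReal ((M + r0) ^ 2) *
      ∫⁻ x, om2 m x * ENNReal.ofReal (‖g₁ x‖ ^ 2 + ‖g₂ x‖ ^ 2 + ‖g₃ x‖ ^ 2)

theorem vs_of (h : S_VSTAR) : ∃ C, VS C := h

section lemmaA

variable {H : Type} [NormedAddCommGroup H] [InnerProductSpace ℂ H] [CompleteSpace H]
  [TopologicalSpace.SeparableSpace H]

theorem om2_le (m : ℕ) {ρ : ℝ} (hρ : 0 < ρ) {x : E3} (hx : ρ ≤ ‖x‖) :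
    om2 m x ≤ ENNReal.ofReal (ρ ^ (-(2 * (m : ℝ) + 1 / 2))) :=
  ENNReal.ofReal_le_ofReal (Real.rpow_le_rpow_of_nonpos hρ hx (by
    have : (0 : ℝ) ≤ m := Nat.cast_nonneg m
    linarith))

/-- weighted integrals of functions vanishing near the origin are finite -/
theorem om2_fin (m : ℕ) {ρ : ℝ} (hρ : 0 < ρ) {F : E3 → ℝ} (hF : ∀ x, ‖x‖ < ρ → F x = 0)
    (hfin : ∫⁻ x, ENNReal.ofReal (F x) < ∞) : ∫⁻ x, om2 m x * ENNReal.ofReal (F x) < ∞ := by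
  calc ∫⁻ x, om2 m x * ENNReal.ofReal (F x)
      ≤ ∫⁻ x, ENNReal.ofReal (ρ ^ (-(2 * (m : ℝ) + 1 / 2))) * ENNReal.ofReal (F x) := by
        refine lintegral_mono fun x => ?_
        rcases lt_or_ge ‖x‖ ρ with h | h
        · rw [hF x h]; simp
        · exact mul_le_mul_left (om2_le m hρ h) _
    _ = ENNReal.ofReal (ρ ^ (-(2 * (m : ℝ) + 1 / 2))) * ∫⁻ x, ENNReal.ofReal (F x) :=
        lintegral_const_mul' _ _ ENNReal.ofReal_ne_top
    _ < ∞ := ENNReal.mul_lt_top ENNReal.ofReal_lt_top hfin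

theorem lin_sq {u : E3 → H} (hu : MemLp u 2) : ∫⁻ x, ENNReal.ofReal (‖u x‖ ^ 2) < ∞ := by
  have h := ((memLp_two_iff_integrable_sq_norm hu.1).1 hu).2
  unfold HasFiniteIntegral at h
  refine lt_of_le_of_lt (lintegral_mono fun x => ?_) h
  rw [← ofReal_norm, Real.norm_eq_abs, abs_of_nonneg (by positivity)]

theorem lemA {C₀ : ℝ≥0} (hVS : VS C₀) {R : H →L[ℂ] H} (hR : GoodR R) {V : E3 → ℝ}
    {ρ r0 M : ℝ} {m : ℕ} {χ g g₃ : E3 → H} {D : Fin 3 → E3 → H} (hV : Measurable V)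
    (hρ : 0 < ρ) (hρr : ρ < r0) (hr0 : r0 ≤ 1) (hm : 1 ≤ m) (hM0 : 0 ≤ M)
    (hsmall : (C₀ : ℝ≥0∞) * ENNReal.ofReal ((M + r0) ^ 2) ≤ 1)
    (hM : (∫⁻ x in Metric.closedBall (0 : E3) r0, ENNReal.ofReal (|V x| ^ (3 / 2 : ℝ))) ^ (2 / 3 : ℝ) ≤
      ENNReal.ofReal M)
    (hχ : MemLp χ 2) (hg : MemLp g 2) (hg₃ : MemLp g₃ 2) (hD : ∀ i, MemLp (D i) 2)
    (hW : WeakGrad χ D) (hfin : ∫⁻ x, ENNReal.ofReal (|V x| * ‖χ x‖ ^ 2) < ∞)
    (hE : HEq R V χ D g g₃)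
    (hsupp : ∀ x, (‖x‖ < ρ ∨ r0 < ‖x‖) → χ x = 0 ∧ g x = 0 ∧ g₃ x = 0 ∧ ∀ i, D i x = 0)
    {f : ℝ → ℝ} (hf : Continuous f)
    {δ : ℝ} (hδ : 0 < δ) (hf0 : ∀ r, r ≤ δ → f r = 0) {s : ℝ} (hs : 0 < s) (hs1 : s ≤ 1) :
    ENNReal.ofReal (s ^ (-(1 / 2 : ℝ))) * ∫⁻ x, om2 m x * ENNReal.ofReal (‖cfc f R (χ x)‖ ^ 2) ≤
      C₀ * ENNReal.ofReal ((M + r0) ^ 2) * ∫⁻ x, om2 m x * ENNReal.ofReal
        (‖cfc (fun r => s ^ (1 / 4 : ℝ) * (f r * (max r δ) ^ (-(1 / 4 : ℝ)))) R (g x)‖ ^ 2 +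
          ‖cfc f R (g₃ x) + cfc (fun r => f r * (s⁻¹ - (max r δ)⁻¹)) R (χ x)‖ ^ 2) := by
  have hVχ : Integrable (fun x => V x • χ x) :=
    int_V hV hχ hM hfin fun x hx => (hsupp x (Or.inr hx)).1
  set g₁ : E3 → H := fun x => (V x / √|V x| : ℝ) • cfc f R (χ x) with hg₁
  have hg₁n : ∀ x, ‖g₁ x‖ ^ 2 = |V x| * ‖cfc f R (χ x)‖ ^ 2 := by
    intro x
    rw [hg₁]
    simp only
    rw [norm_smul, mul_pow]
    congr 1
    rw [Real.norm_eq_abs, sq_abs, div_pow, Real.sq_sqrt (abs_nonneg _), ← sq_abs (V x), pow_two]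
    rcases eq_or_ne (V x) 0 with h | h
    · simp [h]
    · field_simp [abs_ne_zero.2 h]
  have hTχ : MemLp (fun x => cfc f R (χ x)) 2 := memLp_T _ hχ
  have hfin1 : ∫⁻ x, ENNReal.ofReal (|V x| * ‖cfc f R (χ x)‖ ^ 2) < ∞ := by
    calc ∫⁻ x, ENNReal.ofReal (|V x| * ‖cfc f R (χ x)‖ ^ 2)
        ≤ ∫⁻ x, ENNReal.ofReal (‖cfc f R‖ ^ 2) * ENNReal.ofReal (|V x| * ‖χ x‖ ^ 2) := by
          refine lintegral_mono fun x => ?_
          rw [← ENNReal.ofReal_mul (by positivity)]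
          refine ENNReal.ofReal_le_ofReal ?_
          have h1 := (cfc f R).le_opNorm (χ x)
          have h2 : ‖cfc f R (χ x)‖ ^ 2 ≤ ‖cfc f R‖ ^ 2 * ‖χ x‖ ^ 2 := by
            rw [← mul_pow]; exact pow_le_pow_left₀ (norm_nonneg _) h1 2
          nlinarith [mul_le_mul_of_nonneg_left h2 (abs_nonneg (V x))]
      _ = ENNReal.ofReal (‖cfc f R‖ ^ 2) * ∫⁻ x, ENNReal.ofReal (|V x| * ‖χ x‖ ^ 2) :=
          lintegral_const_mul' _ _ ENNReal.ofReal_ne_top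
      _ < ∞ := ENNReal.mul_lt_top ENNReal.ofReal_lt_top hfin
  have hg₁m : AEStronglyMeasurable g₁ := by
    have hsm : AEStronglyMeasurable (fun x => V x / √|V x|) (volume : Measure E3) :=
      (hV.div hV.abs.sqrt).aestronglyMeasurable
    exact hsm.smul hTχ.1
  have hg₁2 : MemLp g₁ 2 := by
    rw [memLp_two_iff_integrable_sq_norm hg₁m]
    refine ⟨(hg₁m.norm.pow 2), ?_⟩
    unfold HasFiniteIntegral
    refine lt_of_le_of_lt (lintegral_mono fun x => ?_) hfin1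
    rw [← ofReal_norm, Real.norm_eq_abs, abs_of_nonneg (by positivity)]
    exact (congrArg ENNReal.ofReal (hg₁n x)).le
  have hκ : √(s ^ (-(1 / 2 : ℝ))) = s ^ (-(1 / 4 : ℝ)) := by
    rw [Real.sqrt_eq_rpow, ← Real.rpow_mul hs.le]; norm_num
  have hκ2 : (s ^ (-(1 / 2 : ℝ))) ^ 2 = s⁻¹ := by
    rw [← Real.rpow_natCast, ← Real.rpow_mul hs.le, ← Real.rpow_neg_one]; norm_num
  have key := hVS H V (s ^ (-(1 / 2 : ℝ))) ρ r0 M m (fun x => cfc f R (χ x)) g₁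
    (fun x => cfc (fun r => s ^ (1 / 4 : ℝ) * (f r * (max r δ) ^ (-(1 / 4 : ℝ)))) R (g x))
    (fun x => cfc f R (g₃ x) + cfc (fun r => f r * (s⁻¹ - (max r δ)⁻¹)) R (χ x))
    (fun i x => cfc f R (D i x)) hV (Real.one_le_rpow_of_pos_of_le_one_of_nonpos hs hs1 (by norm_num))
    hρ hρr hr0 hm hM0 hM hTχ (fun i => memLp_T _ (hD i)) hg₁2 (memLp_T _ hg)
    ((memLp_T _ hg₃).add (memLp_T _ hχ)) ?_ ?_ ?_
  · simp only [hg₁n] at key
    set A := ∫⁻ x, om2 m x * ENNReal.ofReal (|V x| * ‖cfc f R (χ x)‖ ^ 2) with hA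
    set G : E3 → ℝ := fun x =>
        (‖cfc (fun r => s ^ (1 / 4 : ℝ) * (f r * (max r δ) ^ (-(1 / 4 : ℝ)))) R (g x)‖ ^ 2 +
          ‖cfc f R (g₃ x) + cfc (fun r => f r * (s⁻¹ - (max r δ)⁻¹)) R (χ x)‖ ^ 2) with hG
    have hAfin : A < ∞ := by
      refine om2_fin m hρ (fun x hx => ?_) hfin1
      rw [(hsupp x (Or.inl hx)).1]; simp
    have hsplit : ∫⁻ x, om2 m x * ENNReal.ofReal (|V x| * ‖cfc f R (χ x)‖ ^ 2 +
        ‖cfc (fun r => s ^ (1 / 4 : ℝ) * (f r * (max r δ) ^ (-(1 / 4 : ℝ)))) R (g x)‖ ^ 2 +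
          ‖cfc f R (g₃ x) + cfc (fun r => f r * (s⁻¹ - (max r δ)⁻¹)) R (χ x)‖ ^ 2) =
          A + ∫⁻ x, om2 m x * ENNReal.ofReal (G x) := by
      rw [hA, ← lintegral_add_left']
      · refine lintegral_congr fun x => ?_
        rw [← mul_add, ← ENNReal.ofReal_add (by positivity) (by positivity), add_assoc]
      · exact (meas_om2 m).aemeasurable.mul
          ((hV.abs.aemeasurable.mul (hTχ.1.norm.aemeasurable.pow_const 2)).ennreal_ofReal)
    rw [hsplit, mul_add] at key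
    have key2 := key.trans (add_le_add_left (mul_le_of_le_one_left zero_le hsmall) _)
    exact (ENNReal.add_le_add_iff_left hAfin.ne).1 key2
  · intro i φ hφ
    have h : cfc f R (∫ x, pd i φ x • χ x) = cfc f R (-∫ x, φ x • D i x) := by rw [hW i φ hφ]
    rw [map_neg, ← (cfc f R).integral_comp_comm, ← (cfc f R).integral_comp_comm] at h
    · simpa only [ContinuousLinearMap.map_smul_of_tower] using h
    · exact int_test hφ.1.continuous hφ.2 (loc2 (hD i))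
    · exact int_test (pd_cont hφ i) (pd_comp hφ i) (loc2 hχ)
  · intro φ hφ
    have h := eqA hR hχ hg hg₃ hD hVχ hE hf hδ hf0 hs hφ
    rw [hκ, hκ2]
    rw [h]
    refine integral_congr_ae (Eventually.of_forall fun x => ?_)
    simp only
    congr 3
    rw [hg₁]
    simp only
    rw [smul_smul]
    congr 1
    rcases eq_or_ne (V x) 0 with h | h
    · simp [h]
    · field_simp [(Real.sqrt_pos.2 (abs_pos.2 h)).ne']
  · intro x hx
    obtain ⟨h1, h2, h3, h4⟩ := hsupp x hx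
    refine ⟨by simp [h1], by simp [hg₁, h1], by simp [h2], by simp [h1, h3], fun i => by simp [h4 i]⟩

end lemmaA

/-! ### the partition of unity -/

/-- clamp to `[0,1]` -/
def cl (s : ℝ) : ℝ := min 1 (max 0 s)

theorem cl_cont : Continuous cl := continuous_const.min (continuous_const.max continuous_id)
theorem cl_mono : Monotone cl := fun _ _ h => min_le_min_left _ (max_le_max_left _ h)
theorem cl_nonneg (s : ℝ) : 0 ≤ cl s := le_min (by norm_num) (le_max_left _ _)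
theorem cl_le (s : ℝ) : cl s ≤ 1 := min_le_left _ _
theorem cl_zero {s : ℝ} (h : s ≤ 0) : cl s = 0 := by
  rw [cl, max_eq_left h]; norm_num
theorem cl_one {s : ℝ} (h : 1 ≤ s) : cl s = 1 := by
  rw [cl, max_eq_right (by linarith), min_eq_left h]

/-- the cutoff near `0` -/
def th (δ r : ℝ) : ℝ := cl (2 * r / δ - 1)

theorem th_cont (δ : ℝ) : Continuous (th δ) :=
  cl_cont.comp (((continuous_const.mul continuous_id).div_const _).sub continuous_const)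
theorem th_nonneg (δ r : ℝ) : 0 ≤ th δ r := cl_nonneg _
theorem th_le (δ r : ℝ) : th δ r ≤ 1 := cl_le _
theorem th_zero {δ r : ℝ} (hδ : 0 < δ) (h : r ≤ δ / 2) : th δ r = 0 := by
  refine cl_zero ?_
  rw [sub_nonpos, div_le_one hδ]; linarith
theorem th_one {δ r : ℝ} (hδ : 0 < δ) (h : δ ≤ r) : th δ r = 1 := by
  refine cl_one ?_
  rw [le_sub_iff_add_le, le_div_iff₀ hδ]; linarith

/-- the partition of unity -/
def tt (N k : ℕ) (r : ℝ) : ℝ := cl (N * r - k) - cl (N * r - (k + 1 : ℕ))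

theorem tt_cont (N k : ℕ) : Continuous (tt N k) :=
  (cl_cont.comp ((continuous_const.mul continuous_id).sub continuous_const)).sub
    (cl_cont.comp ((continuous_const.mul continuous_id).sub continuous_const))

theorem tt_nonneg (N k : ℕ) (r : ℝ) : 0 ≤ tt N k r :=
  sub_nonneg.2 (cl_mono (by push_cast; linarith))

theorem tt_supp {N k : ℕ} {r : ℝ} (h : tt N k r ≠ 0) : |N * r - (k + 1 : ℕ)| ≤ 1 := by
  rw [abs_le]
  constructor
  · by_contra hc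
    push Not at hc
    apply h
    rw [tt, cl_zero (by push_cast at hc; linarith), cl_zero (by linarith)]; ring
  · by_contra hc
    push Not at hc
    apply h
    rw [tt, cl_one (by push_cast at hc; linarith), cl_one (by linarith)]; ring

theorem tt_sum {N : ℕ} {r : ℝ} (h0 : 1 ≤ N * r) (h1 : r ≤ 1) : ∑ k ∈ Finset.range N, tt N k r = 1 := by
  have h := Finset.sum_range_sub' (fun k : ℕ => cl (N * r - k)) N
  rw [show ∑ k ∈ Finset.range N, tt N k r =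
    ∑ k ∈ Finset.range N, (cl (N * r - k) - cl (N * r - (k + 1 : ℕ))) from rfl, h]
  rw [cl_one (by simpa using h0), cl_zero (by nlinarith [(Nat.cast_nonneg N : (0 : ℝ) ≤ N)])]
  ring

/-- the functions `g_k` -/
def gg (δ : ℝ) (N k : ℕ) (r : ℝ) : ℝ := th δ r * √(tt N k r)

theorem gg_cont (δ : ℝ) (N k : ℕ) : Continuous (gg δ N k) :=
  (th_cont δ).mul (Real.continuous_sqrt.comp (tt_cont N k))

theorem gg_zero {δ : ℝ} (hδ : 0 < δ) (N k : ℕ) {r : ℝ} (h : r ≤ δ / 2) : gg δ N k r = 0 := by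
  rw [gg, th_zero hδ h, zero_mul]

theorem gg_sq (δ : ℝ) (N k : ℕ) (r : ℝ) : gg δ N k r ^ 2 = th δ r ^ 2 * tt N k r := by
  rw [gg, mul_pow, Real.sq_sqrt (tt_nonneg _ _ _)]

/-- the nodes `s_k` -/
def sk (N k : ℕ) : ℝ := (k + 1 : ℕ) / N

theorem sk_pos {N : ℕ} (hN : 0 < N) (k : ℕ) : 0 < sk N k := by unfold sk; positivity

theorem sk_le {N k : ℕ} (hN : 0 < N) (hk : k < N) : sk N k ≤ 1 := by
  unfold sk
  rw [div_le_one (by positivity)]
  exact_mod_cast hk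

/-- on the support of `g_k` the node is close to `r` -/
theorem near {δ : ℝ} (hδ : 0 < δ) {N k : ℕ} (hN : 4 ≤ N * δ) (hN0 : 0 < N) {r : ℝ} (h : gg δ N k r ≠ 0) :
    δ / 2 < r ∧ |r - sk N k| ≤ 1 / N ∧ r / 2 ≤ sk N k ∧ sk N k ≤ 2 * r := by
  have h1 : δ / 2 < r := by
    by_contra hc
    exact h (gg_zero hδ N k (not_lt.1 hc))
  have h2 : tt N k r ≠ 0 := by
    intro hc
    apply h
    rw [gg, hc]; simp
  have hN' : (0 : ℝ) < N := by exact_mod_cast hN0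
  have h3 : |r - sk N k| ≤ 1 / N := by
    rw [le_div_iff₀ hN', ← abs_of_pos hN', ← abs_mul]
    have := tt_supp h2
    rw [sk, sub_mul, div_mul_cancel₀ _ hN'.ne', mul_comm r]
    exact this
  have h4 : 1 / (N : ℝ) ≤ δ / 4 := by
    rw [div_le_div_iff₀ hN' (by norm_num)]; linarith
  have h5 := abs_le.1 h3
  exact ⟨h1, h3, by linarith, by linarith⟩

theorem rp {a b : ℝ} (ha : 0 < a) (hb : 0 < b) : (a ^ (1 / 4 : ℝ) * b ^ (-(1 / 4 : ℝ))) ^ 2 = √(a / b) := by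
  rw [Real.rpow_neg hb.le, ← div_eq_mul_inv, ← Real.div_rpow ha.le hb.le, ← Real.rpow_natCast,
    ← Real.rpow_mul (div_pos ha hb).le, Real.sqrt_eq_rpow]
  norm_num

/-- sums over the partition of unity -/
theorem sum_le {δ : ℝ} (hδ : 0 < δ) {N : ℕ} (hN : 4 ≤ N * δ) {r : ℝ} (h1 : r ≤ 1)
    (q : ℕ → ℝ) {B : ℝ} (hB : ∀ k, gg δ N k r ≠ 0 → q k ≤ B) :
    ∑ k ∈ Finset.range N, gg δ N k r ^ 2 * q k ≤ B * th δ r ^ 2 := by
  rcases le_or_gt r (δ / 2) with h | h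
  · rw [th_zero hδ h, Finset.sum_eq_zero]
    · simp
    · intro k _
      rw [gg_zero hδ N k h]; simp
  · calc ∑ k ∈ Finset.range N, gg δ N k r ^ 2 * q k
        ≤ ∑ k ∈ Finset.range N, gg δ N k r ^ 2 * B := by
          refine Finset.sum_le_sum fun k _ => ?_
          by_cases hg : gg δ N k r = 0
          · rw [hg]; simp
          · exact mul_le_mul_of_nonneg_left (hB k hg) (by positivity)
      _ = B * th δ r ^ 2 := by
          rw [← Finset.sum_mul]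
          simp only [gg_sq]
          rw [← Finset.mul_sum, tt_sum (by nlinarith [(Nat.cast_nonneg N : (0 : ℝ) ≤ N)]) h1]
          ring

theorem sum_ge {δ : ℝ} (hδ : 0 < δ) {N : ℕ} (hN : 4 ≤ N * δ) {r : ℝ} (h1 : r ≤ 1)
    (q : ℕ → ℝ) {B : ℝ} (hB : ∀ k, gg δ N k r ≠ 0 → B ≤ q k) :
    B * th δ r ^ 2 ≤ ∑ k ∈ Finset.range N, gg δ N k r ^ 2 * q k := by
  have h := sum_le hδ hN h1 (fun k => -q k) (B := -B) (fun k hk => neg_le_neg (hB k hk))
  simp only [mul_neg, Finset.sum_neg_distrib, neg_mul] at h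
  linarith

section final

variable {H : Type} [NormedAddCommGroup H] [InnerProductSpace ℂ H] [CompleteSpace H]

theorem dense_R {R : H →L[ℂ] H} (hR : GoodR R) : DenseRange R := by
  have h1 : (LinearMap.range (R : H →ₗ[ℂ] H))ᗮ = ⊥ := by
    rw [Submodule.eq_bot_iff]
    intro v hv
    have h2 : R v = 0 := by
      have h3 : inner ℂ (R (R v)) v = 0 := hv (R (R v)) ⟨R v, rfl⟩
      have h4 : inner ℂ (R (R v)) v = inner ℂ (R v) (R v) := by
        have := ContinuousLinearMap.adjoint_inner_left R v (R v)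
        rw [← ContinuousLinearMap.star_eq_adjoint, hR.sa.star_eq] at this
        exact this
      rw [h4] at h3
      exact inner_self_eq_zero.1 h3
    exact hR.inj (by rw [h2, map_zero])
  have h5 := (Submodule.topologicalClosure_eq_top_iff (K := LinearMap.range (R : H →ₗ[ℂ] H))).2 h1
  have h6 := Submodule.dense_iff_topologicalClosure_eq_top.2 h5
  exact h6

theorem T_tendsto {R : H →L[ℂ] H} (hR : GoodR R) (v : H) :
    Tendsto (fun n : ℕ => cfc (th (1 / ((n : ℝ) + 1))) R v) atTop (𝓝 v) := by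
  rw [Metric.tendsto_atTop]
  intro ε hε
  obtain ⟨w, hw⟩ := (dense_R hR).exists_dist_lt v (show 0 < ε / 4 by positivity)
  obtain ⟨n₀, hn₀⟩ := exists_nat_gt (4 * ‖w‖ / ε)
  refine ⟨n₀, fun n hn => ?_⟩
  set δ : ℝ := 1 / ((n : ℝ) + 1) with hδd
  have hδ : 0 < δ := by positivity
  have h1 : cfc (th δ) R v - v = cfc (th δ) R (v - R w) + cfc (fun r => (th δ r - 1) * r) R w -
      (v - R w) := by
    rw [← T_R hR (f := fun r => th δ r - 1) ((th_cont δ).sub continuous_const)]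
    rw [cfc_sub (th δ) (fun _ => (1 : ℝ)) R (th_cont δ).continuousOn continuousOn_const]
    rw [sub_apply, T_const hR, one_smul, map_sub]
    abel
  have h2 : ‖cfc (th δ) R (v - R w)‖ ≤ 1 * ‖v - R w‖ :=
    T_le_one hR (th_cont δ) zero_le_one (fun r _ _ => by
      rw [abs_of_nonneg (th_nonneg _ _)]; exact th_le _ _) _
  have h3 : ‖cfc (fun r => (th δ r - 1) * r) R w‖ ≤ δ * ‖w‖ := by
    refine T_le_one hR (((th_cont δ).sub continuous_const).mul continuous_id) hδ.le (fun r h0 h1 => ?_) _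
    change |(th δ r - 1) * r| ≤ δ
    rcases le_or_gt δ r with h | h
    · rw [th_one hδ h]; simpa using hδ.le
    · rw [abs_mul, abs_of_nonneg h0, abs_of_nonpos (by linarith [th_le δ r])]
      nlinarith [th_nonneg δ r, th_le δ r]
  have h4 : δ * ‖w‖ < ε / 4 := by
    rw [hδd, div_mul_eq_mul_div, one_mul, div_lt_iff₀ (by positivity)]
    have h5 : (n₀ : ℝ) ≤ n := by exact_mod_cast hn
    rw [div_lt_iff₀ hε] at hn₀
    nlinarith
  rw [dist_eq_norm] at hw ⊢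
  rw [h1]
  calc ‖cfc (th δ) R (v - R w) + cfc (fun r => (th δ r - 1) * r) R w - (v - R w)‖
      ≤ ‖cfc (th δ) R (v - R w)‖ + ‖cfc (fun r => (th δ r - 1) * r) R w‖ + ‖v - R w‖ :=
        (norm_sub_le _ _).trans (add_le_add_left (norm_add_le _ _) _)
    _ < ε := by linarith

theorem lint_mul (m : ℕ) {u : E3 → H} (c : ℝ) (hc : 0 ≤ c) :
    ∫⁻ x, om2 m x * ENNReal.ofReal (c * ‖u x‖ ^ 2) =
      ENNReal.ofReal c * ∫⁻ x, om2 m x * ENNReal.ofReal (‖u x‖ ^ 2) := by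
  rw [← lintegral_const_mul' _ _ ENNReal.ofReal_ne_top]
  refine lintegral_congr fun x => ?_
  rw [ENNReal.ofReal_mul hc]; ring

theorem aem {u : E3 → H} (hu : MemLp u 2) (m : ℕ) : 
    AEMeasurable (fun x => om2 m x * ENNReal.ofReal (‖u x‖ ^ 2)) :=
  (meas_om2 m).aemeasurable.mul (hu.1.norm.aemeasurable.pow_const 2).ennreal_ofReal

theorem lint_add (m : ℕ) {u v : E3 → H} (hu : MemLp u 2) (c d : ℝ) (hc : 0 ≤ c) (hd : 0 ≤ d) :
    ∫⁻ x, om2 m x * ENNReal.ofReal (c * ‖u x‖ ^ 2 + d * ‖v x‖ ^ 2) =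
      ENNReal.ofReal c * (∫⁻ x, om2 m x * ENNReal.ofReal (‖u x‖ ^ 2)) +
      ENNReal.ofReal d * (∫⁻ x, om2 m x * ENNReal.ofReal (‖v x‖ ^ 2)) := by
  rw [← lintegral_const_mul' _ _ ENNReal.ofReal_ne_top,
    ← lintegral_const_mul' _ _ ENNReal.ofReal_ne_top, ← lintegral_add_left' ((aem hu m).const_mul _)]
  refine lintegral_congr fun x => ?_
  rw [ENNReal.ofReal_add (by positivity) (by positivity), ENNReal.ofReal_mul hc, ENNReal.ofReal_mul hd]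
  ring

theorem pw1 {R : H →L[ℂ] H} (hR : GoodR R) {δ : ℝ} (hδ : 0 < δ) {N : ℕ} (hN0 : 0 < N)
    (hN : 4 ≤ N * δ) (v : H) :
    (1 / 4 : ℝ) * ‖cfc (th δ) R v‖ ^ 2 ≤ ∑ k ∈ Finset.range N, sk N k ^ (-(1 / 2 : ℝ)) *
      ‖cfc (gg δ N k) R (Rpow R (1 / 4) v)‖ ^ 2 := by
  have h14 : Continuous fun r : ℝ => r ^ (1 / 4 : ℝ) :=
    continuous_id.rpow_const fun r => Or.inr (by norm_num)
  have hc : ∀ k, Continuous fun r => gg δ N k r * r ^ (1 / 4 : ℝ) := fun k => (gg_cont δ N k).mul h14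
  have h1 : ∀ k, sk N k ^ (-(1 / 2 : ℝ)) * ‖cfc (gg δ N k) R (Rpow R (1 / 4) v)‖ ^ 2 =
      ‖cfc (fun r => sk N k ^ (-(1 / 4 : ℝ)) * (gg δ N k r * r ^ (1 / 4 : ℝ))) R v‖ ^ 2 := by
    intro k
    rw [cfc_const_mul (sk N k ^ (-(1 / 4 : ℝ))) (fun r => gg δ N k r * r ^ (1 / 4 : ℝ)) R (hc k).continuousOn,
      Rpow, ← T_mul R (gg_cont δ N k) h14, smul_apply, norm_smul, mul_pow]
    congr 1
    rw [Real.norm_eq_abs, sq_abs, ← Real.rpow_natCast, ← Real.rpow_mul (sk_pos hN0 k).le]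
    norm_num
  simp only [h1]
  have h2 : (1 / 4 : ℝ) * ‖cfc (th δ) R v‖ ^ 2 = ‖cfc (fun r => (1 / 2 : ℝ) * th δ r) R v‖ ^ 2 := by
    rw [cfc_const_mul (1 / 2 : ℝ) (th δ) R (th_cont δ).continuousOn, smul_apply, norm_smul, mul_pow]
    norm_num
  rw [h2]
  refine T_ge hR _ (fun k => continuous_const.mul (hc k)) (continuous_const.mul (th_cont δ))
    (fun r _ hr1 => ?_) v
  have h3 := sum_ge hδ hN hr1 (fun k => (r ^ (1 / 4 : ℝ) * sk N k ^ (-(1 / 4 : ℝ))) ^ 2) (B := 1 / 4)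
    (fun k hk => ?_)
  · calc ((1 / 2 : ℝ) * th δ r) ^ 2 = 1 / 4 * th δ r ^ 2 := by ring
      _ ≤ _ := h3
      _ = _ := Finset.sum_congr rfl fun k _ => by
          change _ = (sk N k ^ (-(1 / 4 : ℝ)) * (gg δ N k r * r ^ (1 / 4 : ℝ))) ^ 2
          ring
  · obtain ⟨hr, -, h4, h5⟩ := near hδ hN hN0 hk
    have hrp : 0 < r := by linarith
    rw [rp hrp (sk_pos hN0 k)]
    refine Real.le_sqrt_of_sq_le ?_
    rw [le_div_iff₀ (sk_pos hN0 k)]
    nlinarith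

theorem pw2 {R : H →L[ℂ] H} (hR : GoodR R) {δ : ℝ} (hδ : 0 < δ) {N : ℕ} (hN0 : 0 < N)
    (hN : 4 ≤ N * δ) (v : H) :
    ∑ k ∈ Finset.range N, ‖cfc (fun r => sk N k ^ (1 / 4 : ℝ) *
      (gg δ N k r * (max r (δ / 2)) ^ (-(1 / 4 : ℝ)))) R v‖ ^ 2 ≤ 4 * ‖v‖ ^ 2 := by
  have hmpos : ∀ r : ℝ, 0 < max r (δ / 2) := fun r => lt_max_of_lt_right (by positivity)
  have hmc : Continuous fun r : ℝ => max r (δ / 2) := continuous_id.max continuous_const
  have hm4 : Continuous fun r : ℝ => (max r (δ / 2)) ^ (-(1 / 4 : ℝ)) :=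
    hmc.rpow_const fun r => Or.inl (hmpos r).ne'
  have h := T_le_const hR (Finset.range N) (f := fun k r => sk N k ^ (1 / 4 : ℝ) *
      (gg δ N k r * (max r (δ / 2)) ^ (-(1 / 4 : ℝ)))) (fun k => continuous_const.mul
      ((gg_cont δ N k).mul hm4)) (c := 2) (fun r _ hr1 => ?_) v
  · norm_num at h ⊢; exact h
  · have h3 := sum_le hδ hN hr1 (fun k => (sk N k ^ (1 / 4 : ℝ) * (max r (δ / 2)) ^ (-(1 / 4 : ℝ))) ^ 2)
      (B := 4) (fun k hk => ?_)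
    · calc ∑ k ∈ Finset.range N, (sk N k ^ (1 / 4 : ℝ) *
            (gg δ N k r * (max r (δ / 2)) ^ (-(1 / 4 : ℝ)))) ^ 2
          = _ := Finset.sum_congr rfl fun k _ => by ring
        _ ≤ 4 * th δ r ^ 2 := h3
        _ ≤ 2 ^ 2 := by nlinarith [th_nonneg δ r, th_le δ r]
    · obtain ⟨hr, -, h4, h5⟩ := near hδ hN hN0 hk
      have hrp : 0 < r := by linarith
      rw [rp (sk_pos hN0 k) (hmpos r), max_eq_left hr.le]
      refine Real.sqrt_le_iff.2 ⟨by norm_num, ?_⟩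
      rw [div_le_iff₀ hrp]
      nlinarith

theorem pw3 {R : H →L[ℂ] H} (hR : GoodR R) {δ : ℝ} (hδ : 0 < δ) {N : ℕ} 
    (hN : 4 ≤ N * δ) (v : H) :
    ∑ k ∈ Finset.range N, ‖cfc (gg δ N k) R v‖ ^ 2 ≤ ‖v‖ ^ 2 := by
  have h := T_le_const hR (Finset.range N) (f := fun k => gg δ N k) (fun k => gg_cont δ N k)
    (c := 1) (fun r _ hr1 => ?_) v
  · norm_num at h ⊢; exact h
  · have h3 := sum_le hδ hN hr1 (fun k => 1) (B := 1) (fun k hk => le_rfl)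
    simp only [mul_one] at h3
    refine h3.trans ?_
    nlinarith [th_nonneg δ r, th_le δ r]

theorem pw4 {R : H →L[ℂ] H} (hR : GoodR R) {δ : ℝ} (hδ : 0 < δ) {N : ℕ} (hN0 : 0 < N)
    (hN : 4 ≤ N * δ) (v : H) :
    ∑ k ∈ Finset.range N, ‖cfc (fun r => gg δ N k r * ((sk N k)⁻¹ - (max r (δ / 2))⁻¹)) R v‖ ^ 2 ≤
      (8 / (N * δ ^ 2)) ^ 2 * ‖v‖ ^ 2 := by
  have hmpos : ∀ r : ℝ, 0 < max r (δ / 2) := fun r => lt_max_of_lt_right (by positivity)
  have hmc : Continuous fun r : ℝ => max r (δ / 2) := continuous_id.max continuous_const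
  have hmi : Continuous fun r : ℝ => (max r (δ / 2))⁻¹ := hmc.inv₀ fun r => (hmpos r).ne'
  have hN' : (0 : ℝ) < N := by exact_mod_cast hN0
  refine T_le_const hR (Finset.range N) (fun k => (gg_cont δ N k).mul
      (continuous_const.sub hmi)) (fun r _ hr1 => ?_) v
  have h3 := sum_le hδ hN hr1 (fun k => ((sk N k)⁻¹ - (max r (δ / 2))⁻¹) ^ 2)
      (B := (8 / (N * δ ^ 2)) ^ 2) (fun k hk => ?_)
  · calc ∑ k ∈ Finset.range N, (gg δ N k r * ((sk N k)⁻¹ - (max r (δ / 2))⁻¹)) ^ 2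
          = _ := Finset.sum_congr rfl fun k _ => by ring
        _ ≤ (8 / (N * δ ^ 2)) ^ 2 * th δ r ^ 2 := h3
        _ ≤ (8 / (N * δ ^ 2)) ^ 2 * 1 := mul_le_mul_of_nonneg_left (by
            nlinarith [th_nonneg δ r, th_le δ r]) (by positivity)
        _ = _ := mul_one _
  · obtain ⟨hr, h6, h4, h5⟩ := near hδ hN hN0 hk
    have hrp : 0 < r := by linarith
    have hs := sk_pos hN0 k
    rw [max_eq_left hr.le, ← sq_abs]
    refine pow_le_pow_left₀ (abs_nonneg _) ?_ 2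
    rw [inv_sub_inv hs.ne' hrp.ne', abs_div, abs_of_pos (mul_pos hs hrp)]
    rw [div_le_div_iff₀ (mul_pos hs hrp) (by positivity)]
    have h7 : |r - sk N k| * N ≤ 1 := (le_div_iff₀ hN').1 h6
    have h8 : δ ^ 2 ≤ 8 * (sk N k * r) := by nlinarith
    calc |r - sk N k| * (N * δ ^ 2) = (|r - sk N k| * N) * δ ^ 2 := by ring
      _ ≤ 1 * δ ^ 2 := mul_le_mul_of_nonneg_right h7 (by positivity)
      _ ≤ _ := by linarith

end final

section main

variable {H : Type} [NormedAddCommGroup H] [InnerProductSpace ℂ H] [CompleteSpace H]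
  [TopologicalSpace.SeparableSpace H]

theorem step {C₀ : ℝ≥0} (hVS : VS C₀) {R : H →L[ℂ] H} (hR : GoodR R) {V : E3 → ℝ}
    {ρ r0 M : ℝ} {m : ℕ} {χ ξ g g₃ : E3 → H} {D : Fin 3 → E3 → H} (hV : Measurable V)
    (hρ : 0 < ρ) (hρr : ρ < r0) (hr0 : r0 ≤ 1) (hm : 1 ≤ m) (hM0 : 0 ≤ M)
    (hsmall : (C₀ : ℝ≥0∞) * ENNReal.ofReal ((M + r0) ^ 2) ≤ 1)
    (hM : (∫⁻ x in Metric.closedBall (0 : E3) r0, ENNReal.ofReal (|V x| ^ (3 / 2 : ℝ))) ^ (2 / 3 : ℝ) ≤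
      ENNReal.ofReal M)
    (hχ : MemLp χ 2) (hg : MemLp g 2) (hg₃ : MemLp g₃ 2) (hD : ∀ i, MemLp (D i) 2)
    (hχξ : ∀ x, χ x = Rpow R (1 / 4) (ξ x))
    (hW : WeakGrad χ D) (hfin : ∫⁻ x, ENNReal.ofReal (|V x| * ‖χ x‖ ^ 2) < ∞)
    (hE : HEq R V χ D g g₃)
    (hsupp : ∀ x, (‖x‖ < ρ ∨ r0 < ‖x‖) → χ x = 0 ∧ g x = 0 ∧ g₃ x = 0 ∧ ∀ i, D i x = 0)
    {δ : ℝ} (hδ : 0 < δ) {N : ℕ} (hN0 : 0 < N) (hN : 4 ≤ N * δ) :
    ENNReal.ofReal (1 / 4) * ∫⁻ x, om2 m x * ENNReal.ofReal (‖cfc (th δ) R (ξ x)‖ ^ 2) ≤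
      C₀ * ENNReal.ofReal ((M + r0) ^ 2) *
        (ENNReal.ofReal 4 * (∫⁻ x, om2 m x * ENNReal.ofReal (‖g x‖ ^ 2)) +
          (ENNReal.ofReal 2 * (∫⁻ x, om2 m x * ENNReal.ofReal (‖g₃ x‖ ^ 2)) +
          ENNReal.ofReal (2 * (8 / (N * δ ^ 2)) ^ 2) *
            (∫⁻ x, om2 m x * ENNReal.ofReal (‖χ x‖ ^ 2)))) := by
  set c := (C₀ : ℝ≥0∞) * ENNReal.ofReal ((M + r0) ^ 2) with hc
  have hctop : c ≠ ∞ := (hsmall.trans_lt ENNReal.one_lt_top).ne
  set A : ℕ → E3 → H := fun k x => cfc (fun r => sk N k ^ (1 / 4 : ℝ) *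
      (gg δ N k r * (max r (δ / 2)) ^ (-(1 / 4 : ℝ)))) R (g x) with hA
  set B : ℕ → E3 → H := fun k x => cfc (gg δ N k) R (g₃ x) +
    cfc (fun r => gg δ N k r * ((sk N k)⁻¹ - (max r (δ / 2))⁻¹)) R (χ x) with hB
  have hA2 : ∀ k, MemLp (A k) 2 := fun k => memLp_T _ hg
  have hB2 : ∀ k, MemLp (B k) 2 := fun k => (memLp_T _ hg₃).add (memLp_T _ hχ)
  rw [← lint_mul m (1 / 4) (by norm_num)]
  calc ∫⁻ x, om2 m x * ENNReal.ofReal (1 / 4 * ‖cfc (th δ) R (ξ x)‖ ^ 2)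
      ≤ ∫⁻ x, ∑ k ∈ Finset.range N, ENNReal.ofReal (sk N k ^ (-(1 / 2 : ℝ))) *
          (om2 m x * ENNReal.ofReal (‖cfc (gg δ N k) R (χ x)‖ ^ 2)) := by
        refine lintegral_mono fun x => ?_
        rw [hχξ x]
        calc om2 m x * ENNReal.ofReal (1 / 4 * ‖cfc (th δ) R (ξ x)‖ ^ 2)
            ≤ om2 m x * ENNReal.ofReal (∑ k ∈ Finset.range N, sk N k ^ (-(1 / 2 : ℝ)) *
              ‖cfc (gg δ N k) R (Rpow R (1 / 4) (ξ x))‖ ^ 2) :=
              mul_le_mul_right (ENNReal.ofReal_le_ofReal (pw1 hR hδ hN0 hN (ξ x))) _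
          _ = _ := by
              rw [ENNReal.ofReal_sum_of_nonneg (fun k _ => by
                have := (sk_pos hN0 k).le
                positivity), Finset.mul_sum]
              refine Finset.sum_congr rfl fun k _ => ?_
              rw [ENNReal.ofReal_mul (by have := (sk_pos hN0 k).le; positivity)]
              ring
    _ = ∑ k ∈ Finset.range N, ENNReal.ofReal (sk N k ^ (-(1 / 2 : ℝ))) *
          ∫⁻ x, (om2 m x * ENNReal.ofReal (‖cfc (gg δ N k) R (χ x)‖ ^ 2)) := by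
        rw [lintegral_finsetSum' _ (fun k _ => (aem (memLp_T _ hχ) m).const_mul _)]
        refine Finset.sum_congr rfl fun k _ => ?_
        rw [lintegral_const_mul' _ _ ENNReal.ofReal_ne_top]
    _ ≤ ∑ k ∈ Finset.range N, c * ∫⁻ x, om2 m x * ENNReal.ofReal (‖A k x‖ ^ 2 + ‖B k x‖ ^ 2) := by
        refine Finset.sum_le_sum fun k hk => ?_
        exact lemA hVS hR hV hρ hρr hr0 hm hM0 hsmall hM hχ hg hg₃ hD hW hfin hE hsupp
          (gg_cont δ N k) (half_pos hδ) (fun r hr => gg_zero hδ N k hr) (sk_pos hN0 k)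
          (sk_le hN0 (Finset.mem_range.1 hk))
    _ = c * ∫⁻ x, ∑ k ∈ Finset.range N, om2 m x * ENNReal.ofReal (‖A k x‖ ^ 2 + ‖B k x‖ ^ 2) := by
        rw [← Finset.mul_sum, lintegral_finsetSum']
        intro k _
        exact (meas_om2 m).aemeasurable.mul (((hA2 k).1.norm.aemeasurable.pow_const 2).add
          ((hB2 k).1.norm.aemeasurable.pow_const 2)).ennreal_ofReal
    _ ≤ c * ∫⁻ x, (om2 m x * ENNReal.ofReal (4 * ‖g x‖ ^ 2 + 0 * ‖g x‖ ^ 2) +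
          om2 m x * ENNReal.ofReal (2 * ‖g₃ x‖ ^ 2 + 2 * (8 / (N * δ ^ 2)) ^ 2 * ‖χ x‖ ^ 2)) := by
        refine mul_le_mul_right (lintegral_mono fun x => ?_) _
        rw [← Finset.mul_sum, ← mul_add, ← ENNReal.ofReal_sum_of_nonneg (fun k _ => by positivity),
          ← ENNReal.ofReal_add (by positivity) (by positivity)]
        refine mul_le_mul_right (ENNReal.ofReal_le_ofReal ?_) _
        rw [Finset.sum_add_distrib]
        have h1 := pw2 hR hδ hN0 hN (g x)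
        have h2 : ∑ k ∈ Finset.range N, ‖B k x‖ ^ 2 ≤
            2 * ‖g₃ x‖ ^ 2 + 2 * (8 / (N * δ ^ 2)) ^ 2 * ‖χ x‖ ^ 2 := by
          have h3 := pw3 hR hδ hN (g₃ x)
          have h4 := pw4 hR hδ hN0 hN (χ x)
          calc ∑ k ∈ Finset.range N, ‖B k x‖ ^ 2 ≤ ∑ k ∈ Finset.range N,
              (2 * ‖cfc (gg δ N k) R (g₃ x)‖ ^ 2 +
                2 * ‖cfc (fun r => gg δ N k r * ((sk N k)⁻¹ - (max r (δ / 2))⁻¹)) R (χ x)‖ ^ 2) := by
                refine Finset.sum_le_sum fun k _ => ?_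
                have h5 : ‖B k x‖ ≤ ‖cfc (gg δ N k) R (g₃ x)‖ +
                  ‖cfc (fun r => gg δ N k r * ((sk N k)⁻¹ - (max r (δ / 2))⁻¹)) R (χ x)‖ :=
                  norm_add_le _ _
                nlinarith [norm_nonneg (B k x), sq_nonneg (‖cfc (gg δ N k) R (g₃ x)‖ -
                  ‖cfc (fun r => gg δ N k r * ((sk N k)⁻¹ - (max r (δ / 2))⁻¹)) R (χ x)‖)]
            _ = 2 * (∑ k ∈ Finset.range N, ‖cfc (gg δ N k) R (g₃ x)‖ ^ 2) +
                2 * ∑ k ∈ Finset.range N,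
                  ‖cfc (fun r => gg δ N k r * ((sk N k)⁻¹ - (max r (δ / 2))⁻¹)) R (χ x)‖ ^ 2 := by
                rw [Finset.sum_add_distrib, Finset.mul_sum, Finset.mul_sum]
            _ ≤ _ := by linarith
        linarith
    _ = _ := by
        rw [lintegral_add_left', lint_add m hg 4 0 (by norm_num) (by norm_num),
          lint_add m hg₃ 2 _ (by norm_num) (by positivity)]
        · simp
        · exact (meas_om2 m).aemeasurable.mul (((hg.1.norm.aemeasurable.pow_const 2).const_mul 4).add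
            ((hg.1.norm.aemeasurable.pow_const 2).const_mul 0)).ennreal_ofReal

theorem step2 {C₀ : ℝ≥0} (hVS : VS C₀) {R : H →L[ℂ] H} (hR : GoodR R) {V : E3 → ℝ}
    {ρ r0 M : ℝ} {m : ℕ} {χ ξ g g₃ : E3 → H} {D : Fin 3 → E3 → H} (hV : Measurable V)
    (hρ : 0 < ρ) (hρr : ρ < r0) (hr0 : r0 ≤ 1) (hm : 1 ≤ m) (hM0 : 0 ≤ M)
    (hsmall : (C₀ : ℝ≥0∞) * ENNReal.ofReal ((M + r0) ^ 2) ≤ 1)
    (hM : (∫⁻ x in Metric.closedBall (0 : E3) r0, ENNReal.ofReal (|V x| ^ (3 / 2 : ℝ))) ^ (2 / 3 : ℝ) ≤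
      ENNReal.ofReal M)
    (hχ : MemLp χ 2) (hg : MemLp g 2) (hg₃ : MemLp g₃ 2) (hD : ∀ i, MemLp (D i) 2)
    (hχξ : ∀ x, χ x = Rpow R (1 / 4) (ξ x))
    (hW : WeakGrad χ D) (hfin : ∫⁻ x, ENNReal.ofReal (|V x| * ‖χ x‖ ^ 2) < ∞)
    (hE : HEq R V χ D g g₃)
    (hsupp : ∀ x, (‖x‖ < ρ ∨ r0 < ‖x‖) → χ x = 0 ∧ g x = 0 ∧ g₃ x = 0 ∧ ∀ i, D i x = 0)
    {δ : ℝ} (hδ : 0 < δ) :
    ENNReal.ofReal (1 / 4) * ∫⁻ x, om2 m x * ENNReal.ofReal (‖cfc (th δ) R (ξ x)‖ ^ 2) ≤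
      C₀ * ENNReal.ofReal ((M + r0) ^ 2) *
        (ENNReal.ofReal 4 * (∫⁻ x, om2 m x * ENNReal.ofReal (‖g x‖ ^ 2)) +
          (ENNReal.ofReal 2 * (∫⁻ x, om2 m x * ENNReal.ofReal (‖g₃ x‖ ^ 2)))) := by
  have hctop : (C₀ : ℝ≥0∞) * ENNReal.ofReal ((M + r0) ^ 2) ≠ ∞ := (hsmall.trans_lt ENNReal.one_lt_top).ne
  have hZ : ∫⁻ x, om2 m x * ENNReal.ofReal (‖χ x‖ ^ 2) < ∞ :=
    om2_fin m hρ (fun x hx => by rw [(hsupp x (Or.inl hx)).1]; simp) (lin_sq hχ)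
  have h0 : Tendsto (fun N : ℕ => ENNReal.ofReal (2 * (8 / (N * δ ^ 2)) ^ 2) *
      (∫⁻ x, om2 m x * ENNReal.ofReal (‖χ x‖ ^ 2))) atTop (𝓝 0) := by
    have h1 : Tendsto (fun N : ℕ => ENNReal.ofReal (2 * (8 / (N * δ ^ 2)) ^ 2)) atTop (𝓝 0) := by
      rw [← ENNReal.ofReal_zero]
      refine ENNReal.tendsto_ofReal ?_
      have h2 : Tendsto (fun N : ℕ => 8 / ((N : ℝ) * δ ^ 2)) atTop (𝓝 0) :=
        tendsto_const_nhds.div_atTop (tendsto_natCast_atTop_atTop.atTop_mul_const (by positivity))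
      have h3 := (h2.pow 2).const_mul 2
      simpa using h3
    have := ENNReal.Tendsto.mul_const h1 (b := ∫⁻ x, om2 m x * ENNReal.ofReal (‖χ x‖ ^ 2)) (Or.inr hZ.ne)
    rwa [zero_mul] at this
  have h1 : Tendsto (fun N : ℕ => (C₀ : ℝ≥0∞) * ENNReal.ofReal ((M + r0) ^ 2) *
        (ENNReal.ofReal 4 * (∫⁻ x, om2 m x * ENNReal.ofReal (‖g x‖ ^ 2)) +
          (ENNReal.ofReal 2 * (∫⁻ x, om2 m x * ENNReal.ofReal (‖g₃ x‖ ^ 2)) +
          ENNReal.ofReal (2 * (8 / (N * δ ^ 2)) ^ 2) *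
            (∫⁻ x, om2 m x * ENNReal.ofReal (‖χ x‖ ^ 2))))) atTop (𝓝
      (C₀ * ENNReal.ofReal ((M + r0) ^ 2) *
        (ENNReal.ofReal 4 * (∫⁻ x, om2 m x * ENNReal.ofReal (‖g x‖ ^ 2)) +
          (ENNReal.ofReal 2 * (∫⁻ x, om2 m x * ENNReal.ofReal (‖g₃ x‖ ^ 2)) + 0)))) :=
    ENNReal.Tendsto.const_mul (tendsto_const_nhds.add (tendsto_const_nhds.add h0)) (Or.inr hctop)
  rw [add_zero] at h1
  obtain ⟨N₀, hN₀⟩ := exists_nat_gt (4 / δ)
  refine ge_of_tendsto h1 ?_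
  filter_upwards [eventually_ge_atTop (max N₀ 1)] with N hN
  have hN1 : 1 ≤ N := (le_max_right _ _).trans hN
  have hN2 : (N₀ : ℝ) ≤ N := by exact_mod_cast (le_max_left _ _).trans hN
  refine step hVS hR hV hρ hρr hr0 hm hM0 hsmall hM hχ hg hg₃ hD hχξ hW hfin hE hsupp hδ hN1 ?_
  rw [div_lt_iff₀ hδ] at hN₀
  nlinarith

end main

theorem four_mul {X Y c : ℝ≥0∞} (h : ENNReal.ofReal (1 / 4) * X ≤ c * (ENNReal.ofReal 4 * Y)) :
    X ≤ 16 * c * Y := by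
  calc X = ENNReal.ofReal 4 * (ENNReal.ofReal (1 / 4) * X) := by
        rw [← mul_assoc, ← ENNReal.ofReal_mul (by norm_num)]; norm_num
    _ ≤ ENNReal.ofReal 4 * (c * (ENNReal.ofReal 4 * Y)) := mul_le_mul_right h _
    _ = (ENNReal.ofReal 4 * ENNReal.ofReal 4) * c * Y := by ring
    _ = 16 * c * Y := by rw [← ENNReal.ofReal_mul (by norm_num)]; norm_num

theorem t_HCAR2 : S_HCAR2 := by
  intro hV
  obtain ⟨C₀, hVS⟩ := vs_of hV
  refine ⟨1 / (C₀ + 1), by positivity, 16 * C₀, ?_⟩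
  intro H _ _ _ _ R hR V ρ r0 M m χ ξ g g₃ D hV hρ hρr hr0 hm hM0 hε hM hχ hξ hg hg₃ hD hχξ hW hfin
    hE hsupp
  have hr0p : 0 < r0 := hρ.trans hρr
  have hsmall : (C₀ : ℝ≥0∞) * ENNReal.ofReal ((M + r0) ^ 2) ≤ 1 := by
    rw [← ENNReal.ofReal_coe_nnreal, ← ENNReal.ofReal_mul (by positivity), ← ENNReal.ofReal_one]
    refine ENNReal.ofReal_le_ofReal ?_
    have hC : (0 : ℝ) ≤ C₀ := C₀.2
    have h1 : (M + r0) ^ 2 ≤ (1 / ((C₀ : ℝ) + 1)) ^ 2 := pow_le_pow_left₀ (by positivity) hε 2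
    calc (C₀ : ℝ) * (M + r0) ^ 2 ≤ C₀ * (1 / ((C₀ : ℝ) + 1)) ^ 2 := mul_le_mul_of_nonneg_left h1 hC
      _ = C₀ / ((C₀ : ℝ) + 1) ^ 2 := by rw [div_pow, one_pow, mul_one_div]
      _ ≤ 1 := by
        rw [div_le_one (by positivity)]
        nlinarith
  have hsupp' : ∀ x, (‖x‖ < ρ ∨ r0 < ‖x‖) → χ x = 0 ∧ g x = 0 ∧ g₃ x = 0 ∧ ∀ i, D i x = 0 := by
    intro x hx
    obtain ⟨h1, h2, h3, h4⟩ := hsupp x hx
    exact ⟨by rw [hχξ x, h1, map_zero], h2, h3, h4⟩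
  set G := ∫⁻ x, om2 m x * ENNReal.ofReal (‖g x‖ ^ 2 + ‖g₃ x‖ ^ 2) with hG
  have hstep : ∀ n : ℕ, ∫⁻ x, om2 m x * ENNReal.ofReal (‖cfc (th (1 / ((n : ℝ) + 1))) R (ξ x)‖ ^ 2) ≤
      (16 * C₀ : ℝ≥0) * ENNReal.ofReal ((M + r0) ^ 2) * G := by
    intro n
    have h1 := step2 hVS hR hV hρ hρr hr0 hm hM0 hsmall hM hχ hg hg₃ hD hχξ hW hfin hE hsupp'
      (δ := 1 / ((n : ℝ) + 1)) (by positivity)
    have h2 : ENNReal.ofReal 4 * (∫⁻ x, om2 m x * ENNReal.ofReal (‖g x‖ ^ 2)) +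
          (ENNReal.ofReal 2 * (∫⁻ x, om2 m x * ENNReal.ofReal (‖g₃ x‖ ^ 2))) ≤ ENNReal.ofReal 4 * G := by
      rw [← lint_add m hg 4 2 (by norm_num) (by norm_num), hG,
        ← lintegral_const_mul' _ _ ENNReal.ofReal_ne_top]
      refine lintegral_mono fun x => ?_
      rw [mul_left_comm, ← ENNReal.ofReal_mul (by norm_num)]
      refine mul_le_mul_right (ENNReal.ofReal_le_ofReal ?_) _
      nlinarith [sq_nonneg ‖g₃ x‖]
    refine (four_mul (h1.trans (mul_le_mul_right h2 _))).trans (le_of_eq ?_)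
    push_cast
    ring
  have hlim : ∀ x, Tendsto (fun n : ℕ => om2 m x *
      ENNReal.ofReal (‖cfc (th (1 / ((n : ℝ) + 1))) R (ξ x)‖ ^ 2)) atTop
      (𝓝 (om2 m x * ENNReal.ofReal (‖ξ x‖ ^ 2))) := fun x =>
    ENNReal.Tendsto.const_mul (ENNReal.tendsto_ofReal ((T_tendsto hR (ξ x)).norm.pow 2))
      (Or.inr ENNReal.ofReal_ne_top)
  calc ∫⁻ x, om2 m x * ENNReal.ofReal (‖ξ x‖ ^ 2)
      = ∫⁻ x, liminf (fun n : ℕ => om2 m x *
          ENNReal.ofReal (‖cfc (th (1 / ((n : ℝ) + 1))) R (ξ x)‖ ^ 2)) atTop :=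
        lintegral_congr fun x => (hlim x).liminf_eq.symm
    _ ≤ liminf (fun n : ℕ => ∫⁻ x, om2 m x *
          ENNReal.ofReal (‖cfc (th (1 / ((n : ℝ) + 1))) R (ξ x)‖ ^ 2)) atTop :=
        lintegral_liminf_le' fun n => aem (memLp_T _ hξ) m
    _ ≤ (16 * C₀ : ℝ≥0) * ENNReal.ofReal ((M + r0) ^ 2) * G := by
        refine (liminf_le_liminf (Eventually.of_forall hstep)).trans ?_
        simp

end Pool.Agent.H120.HK
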